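import Pool.Agent.Helper35.PI.St1

/-! # Project PI, module E2: gradients of `s` and `r` -/

namespace Helper7.PI

open Helper35.PI
open scoped BigOperators

variable {n N : ℕ}

private theorem E2_proj (h a b : EE N) (hh : 0 < ‖h‖ ^ 2) :
    inner ℝ ((1 / ‖h‖) • (a - (inner ℝ a h / ‖h‖ ^ 2) • h))
        ((1 / ‖h‖) • (b - (inner ℝ b h / ‖h‖ ^ 2) • h))
      = (inner ℝ a b - inner ℝ a h * inner ℝ b h / ‖h‖ ^ 2) / ‖h‖ ^ 2 := by
  have h1 : ‖h‖ ≠ 0 := by
    intro hc
    rw [hc] at hh
    norm_num at hh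
  rw [inner_smul_left, inner_smul_right, inner_sub_left, inner_sub_right, inner_sub_right,
    inner_smul_left, inner_smul_left, inner_smul_right, inner_smul_right, real_inner_self_eq_norm_sq,
    real_inner_comm b h]
  simp only [conj_trivial]
  field_simp
  ring

private theorem E2_M (A : Fin n → Fin n → EE N) (f : Fin n → Fin n → ℝ) :
    ∑ i, ∑ j, mA A i j * f i j
      = (∑ i, ∑ j, zz A i j * f i j) / YY A - (1 / n) * ∑ i, f i i := by
  have h1 : ∀ i j, mA A i j * f i j = zz A i j * f i j / YY A - dl i j * f i j := by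
    intro i j
    unfold mA
    ring
  have h2 : ∀ i : Fin n, ∑ j, dl i j * f i j = (1 / n) * f i i := by
    intro i
    unfold dl
    simp
  simp only [h1, Finset.sum_sub_distrib, h2]
  rw [Finset.mul_sum, Finset.sum_div]
  congr 1
  refine Finset.sum_congr rfl (fun i _ => ?_)
  rw [Finset.sum_div]

private theorem E2_trz (A : Fin n → Fin n → EE N) : ∑ i, zz A i i = YY A := by
  unfold zz YY
  rw [← sum_inner, ← real_inner_self_eq_norm_sq]
  rfl

private theorem E2_et (T : Fin n → Fin n → Fin n → EE N) (hT : Sym3V T) (k : Fin n) :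
    ∑ i, T k i i = et T k := by
  unfold et
  refine Finset.sum_congr rfl (fun i _ => ?_)
  rw [hT.1 k i i, hT.2 i k i]

private theorem E2_y (A : Fin n → Fin n → EE N) (T : Fin n → Fin n → Fin n → EE N) (hT : Sym3V T)
    (k : Fin n) : yv (tA A T) k = inner ℝ (et T k) (Hv A) / YY A := by
  unfold yv tA
  rw [← Finset.sum_div, ← sum_inner, E2_et T hT]

private theorem E2_w (A : Fin n → Fin n → EE N) (T : Fin n → Fin n → Fin n → EE N) (hT : Sym3V T)
    (k : Fin n) : wv (thA A T) k
      = (1 / ‖Hv A‖) • (et T k - (inner ℝ (et T k) (Hv A) / ‖Hv A‖ ^ 2) • Hv A) := by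
  unfold wv thA
  rw [← Finset.smul_sum, Finset.sum_sub_distrib, E2_et T hT, ← Finset.sum_smul, ← Finset.sum_div,
    ← sum_inner, E2_et T hT]
  rfl

private theorem E2_B (A : Fin n → Fin n → EE N) (i j : Fin n) : BA A i j
      = (1 / ‖Hv A‖) • (A i j - (inner ℝ (A i j) (Hv A) / ‖Hv A‖ ^ 2) • Hv A) := rfl

private theorem E2_th (A : Fin n → Fin n → EE N) (T : Fin n → Fin n → Fin n → EE N) (i j k : Fin n) :
    thA A T i j k
      = (1 / ‖Hv A‖) • (T i j k - (inner ℝ (T i j k) (Hv A) / ‖Hv A‖ ^ 2) • Hv A) := rfl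

private theorem E2_trB (A : Fin n → Fin n → EE N) (hY : 0 < YY A) : ∑ i, BA A i i = 0 := by
  unfold BA
  rw [← Finset.smul_sum, Finset.sum_sub_distrib, ← Finset.sum_smul, ← Finset.sum_div, E2_trz,
    div_self hY.ne', one_smul]
  simp [Hv]

private theorem E2_sgw (A : Fin n → Fin n → EE N) (w : EE N) :
    inner ℝ (sg (mA A) (BA A)) w = ∑ i, ∑ j, mA A i j * inner ℝ (BA A i j) w := by
  unfold sg
  rw [sum_inner]
  refine Finset.sum_congr rfl (fun i _ => ?_)
  rw [sum_inner]
  refine Finset.sum_congr rfl (fun j _ => ?_)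
  rw [inner_smul_left]
  rfl

theorem hE2 : StE2 := by
  intro n N hn A T hA hT hY k
  have hY' : 0 < ‖Hv A‖ ^ 2 := hY
  have hYY : ‖Hv A‖ ^ 2 = YY A := rfl
  set e : ℝ := inner ℝ (et T k) (Hv A) with he
  set y : ℝ := e / YY A with hy
  have hyv : yv (tA A T) k = y := E2_y A T hT k
  have heY : e = y * YY A := by rw [hy]; field_simp
  -- abbreviations
  have hPii : ∑ i, inner ℝ (A i i) (et T k) = e := by
    rw [← sum_inner, he, real_inner_comm]
    rfl
  have htii : ∑ i, inner ℝ (T k i i) (Hv A) = e := by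
    rw [← sum_inner, E2_et T hT]
  have hBw : ∀ i j, inner ℝ (BA A i j) (wv (thA A T) k)
      = (inner ℝ (A i j) (et T k) - zz A i j * y) / YY A := by
    intro i j
    rw [E2_w A T hT, E2_B, E2_proj _ _ _ hY', hYY, ← he]
    unfold zz
    rw [hy]
    ring
  have hV : ∀ i j, Vt (mA A) (tA A T) k i j = (inner ℝ (T k i j) (Hv A) - zz A i j * y) / YY A := by
    intro i j
    unfold Vt
    rw [hyv]
    unfold mA tA
    ring
  have hBt : ∀ i j, inner ℝ (BA A i j) (thA A T k i j)
      = (inner ℝ (A i j) (T k i j) - zz A i j * inner ℝ (T k i j) (Hv A) / YY A) / YY A := by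
    intro i j
    rw [E2_th, E2_B, E2_proj _ _ _ hY', hYY]
    rfl
  have hBB : ∀ i j, inner ℝ (BA A i j) (BA A i j) = (‖A i j‖ ^ 2 - zz A i j ^ 2 / YY A) / YY A := by
    intro i j
    rw [E2_B, E2_proj _ _ _ hY', hYY, real_inner_self_eq_norm_sq]
    unfold zz
    ring
  -- sums
  set a : ℝ := ∑ i, ∑ j, zz A i j * inner ℝ (T k i j) (Hv A) with ha
  set b : ℝ := ∑ i, ∑ j, zz A i j * inner ℝ (A i j) (et T k) with hb
  set c : ℝ := ∑ i, ∑ j, inner ℝ (A i j) (T k i j) with hc
  have hZ : ∑ i, ∑ j, zz A i j * zz A i j = ZZ A := by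
    unfold ZZ
    simp only [pow_two]
  have hgZ : gZ A T k = 2 * (a + b) := by
    unfold gZ gz
    rw [ha, hb, ← Finset.sum_add_distrib]
    congr 1
    refine Finset.sum_congr rfl (fun i _ => ?_)
    rw [← Finset.sum_add_distrib]
    refine Finset.sum_congr rfl (fun j _ => ?_)
    rw [← hT.2 i k j, ← hT.1 k i j]
    ring
  have hgX : gX A T k = 2 * c := by
    unfold gX
    rw [hc]
    congr 1
    refine Finset.sum_congr rfl (fun i _ => Finset.sum_congr rfl (fun j _ => ?_))
    rw [← hT.2 i k j, ← hT.1 k i j]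
  have hgY : gY A T k = 2 * (y * YY A) := by
    unfold gY
    rw [real_inner_comm, ← he, heY]
  have hsw : inner ℝ (sg (mA A) (BA A)) (wv (thA A T) k) = (b - y * ZZ A) / YY A ^ 2 := by
    rw [E2_sgw]
    simp only [hBw]
    rw [E2_M]
    have h1 : ∑ i, ∑ j, zz A i j * ((inner ℝ (A i j) (et T k) - zz A i j * y) / YY A)
        = (b - y * ZZ A) / YY A := by
      rw [← hZ, hb, Finset.mul_sum, ← Finset.sum_sub_distrib, Finset.sum_div]
      refine Finset.sum_congr rfl (fun i _ => ?_)
      rw [Finset.mul_sum, ← Finset.sum_sub_distrib, Finset.sum_div]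
      refine Finset.sum_congr rfl (fun j _ => ?_)
      ring
    have h2 : ∑ i, (inner ℝ (A i i) (et T k) - zz A i i * y) / YY A = 0 := by
      rw [← Finset.sum_div, Finset.sum_sub_distrib, hPii, ← Finset.sum_mul, E2_trz, heY]
      ring
    rw [h1, h2]
    field_simp
    ring
  have hmV : ∑ i, ∑ j, mA A i j * Vt (mA A) (tA A T) k i j = (a - y * ZZ A) / YY A ^ 2 := by
    simp only [hV]
    rw [E2_M]
    have h1 : ∑ i, ∑ j, zz A i j * ((inner ℝ (T k i j) (Hv A) - zz A i j * y) / YY A)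
        = (a - y * ZZ A) / YY A := by
      rw [← hZ, ha, Finset.mul_sum, ← Finset.sum_sub_distrib, Finset.sum_div]
      refine Finset.sum_congr rfl (fun i _ => ?_)
      rw [Finset.mul_sum, ← Finset.sum_sub_distrib, Finset.sum_div]
      refine Finset.sum_congr rfl (fun j _ => ?_)
      ring
    have h2 : ∑ i, (inner ℝ (T k i i) (Hv A) - zz A i i * y) / YY A = 0 := by
      rw [← Finset.sum_div, Finset.sum_sub_distrib, htii, ← Finset.sum_mul, E2_trz, heY]
      ring
    rw [h1, h2]
    field_simp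
    ring
  have hg : gsv (mA A) (BA A) (tA A T) (thA A T) k = (a + b - 2 * y * ZZ A) / YY A ^ 2 := by
    unfold gsv
    rw [hmV, hsw]
    ring
  have hBU : ∑ i, ∑ j, inner ℝ (BA A i j) (Ut (BA A) (tA A T) (thA A T) k i j)
      = c / YY A - a / YY A ^ 2 - y * (XX A / YY A - ZZ A / YY A ^ 2) := by
    have h1 : ∀ i j, inner ℝ (BA A i j) (Ut (BA A) (tA A T) (thA A T) k i j)
        = ((inner ℝ (A i j) (T k i j) / YY A - zz A i j * inner ℝ (T k i j) (Hv A) / YY A ^ 2)
          - y * (‖A i j‖ ^ 2 / YY A - zz A i j * zz A i j / YY A ^ 2))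
          - dl i j * inner ℝ (BA A i j) (wv (thA A T) k) := by
      intro i j
      unfold Ut
      rw [inner_sub_right, inner_sub_right, inner_smul_right, inner_smul_right, hBt, hyv, hBB]
      field_simp
    simp only [h1]
    have h2 : ∑ i, ∑ j, dl i j * inner ℝ (BA A i j) (wv (thA A T) k) = 0 := by
      have h3 : ∀ i : Fin n, ∑ j, dl i j * inner ℝ (BA A i j) (wv (thA A T) k)
          = (1 / n) * inner ℝ (BA A i i) (wv (thA A T) k) := by
        intro i
        unfold dl
        simp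
      simp only [h3]
      rw [← Finset.mul_sum, ← sum_inner, E2_trB A hY, inner_zero_left, mul_zero]
    simp only [Finset.sum_sub_distrib, h2, sub_zero]
    rw [hc, ha, ← hZ]
    unfold XX
    simp only [Finset.sum_div, Finset.mul_sum, mul_sub, Finset.sum_sub_distrib]
  have hr : grv (mA A) (BA A) (tA A T) (thA A T) k
      = c / YY A - a / YY A ^ 2 - y * (XX A / YY A - ZZ A / YY A ^ 2) - (b - y * ZZ A) / YY A ^ 2 := by
    unfold grv
    rw [hBU, hsw]
  rw [hg, hr, hgZ, hgX, hgY]
  constructor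
  · field_simp
  · field_simp
    ring

end Helper7.PI
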