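import Mathlib
import Pool.Agent.Helper35.PI.St4

/-! PI module V1: evolution of the area density. -/

set_option autoImplicit false

namespace Helper7.PI

open Helper35.PI
open scoped Topology ContDiff
open Filter Set

section jacobi

variable {n : ℕ}

lemma contDiffAt_det {E : Type*} [NormedAddCommGroup E] [NormedSpace ℝ E] {m : ℕ∞ω}
    (M : E → Matrix (Fin n) (Fin n) ℝ) (x : E)
    (h : ∀ i j, ContDiffAt ℝ m (fun y => M y i j) x) :
    ContDiffAt ℝ m (fun y => (M y).det) x := by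
  simp only [Matrix.det_apply, Units.smul_def, zsmul_eq_mul]
  refine ContDiffAt.sum fun σ _ => ?_
  refine contDiffAt_const.mul ?_
  exact contDiffAt_prod fun i _ => h _ _

/-- Jacobi's formula at an invertible matrix. -/
lemma jacobi (A : ℝ → Matrix (Fin n) (Fin n) ℝ) (A' : Matrix (Fin n) (Fin n) ℝ) (t₀ : ℝ)
    (h : ∀ i j, HasDerivAt (fun t => A t i j) (A' i j) t₀) (hdet : IsUnit (A t₀).det) :
    HasDerivAt (fun t => (A t).det) ((A t₀).det * ((A t₀)⁻¹ * A').trace) t₀ := by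
  let D : (Fin n → Fin n → ℝ) → ℝ := fun M => (Matrix.of M).det
  have hD : ∀ M, DifferentiableAt ℝ D M := by
    intro M
    refine (contDiffAt_det (m := 1) (fun y : Fin n → Fin n → ℝ => Matrix.of y) M ?_).differentiableAt
      (by norm_num)
    intro i j
    have h1 : ContDiffAt ℝ 1 (fun y : Fin n → Fin n → ℝ => y i j) M :=
      (contDiff_apply_apply ℝ ℝ i j).contDiffAt
    exact h1
  let B : ℝ → (Fin n → Fin n → ℝ) := fun t i j => A t i j
  let B' : Fin n → Fin n → ℝ := fun i j => A' i j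
  have hB : HasDerivAt B B' t₀ := by
    refine hasDerivAt_pi.2 fun i => hasDerivAt_pi.2 fun j => h i j
  have h1 : HasDerivAt (fun t => D (B t)) (fderiv ℝ D (B t₀) B') t₀ :=
    (hD _).hasFDerivAt.comp_hasDerivAt t₀ hB
  have hline : HasDerivAt (fun s : ℝ => B t₀ + s • B') B' 0 := by
    have := ((hasDerivAt_id (0 : ℝ)).smul_const B').const_add (B t₀)
    simpa using this
  have h2 : HasDerivAt (fun s : ℝ => D (B t₀ + s • B')) (fderiv ℝ D (B t₀) B') 0 := by
    have h3 : HasFDerivAt D (fderiv ℝ D (B t₀)) (B t₀ + (0 : ℝ) • B') := by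
      rw [zero_smul, add_zero]
      exact (hD _).hasFDerivAt
    exact h3.comp_hasDerivAt 0 hline
  have h4 : (fun s : ℝ => D (B t₀ + s • B')) =
      fun s : ℝ => (A t₀).det * (1 + ((A t₀)⁻¹ * A').trace * s +
        (Matrix.det (1 + (Polynomial.X : Polynomial ℝ) •
          ((A t₀)⁻¹ * A').map Polynomial.C)).divX.divX.eval s * s ^ 2) := by
    funext s
    rw [← Matrix.det_one_add_smul, ← Matrix.det_mul]
    have h5 : (Matrix.of (B t₀ + s • B')) = A t₀ + s • A' := rfl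
    have h6 : A t₀ * (1 + s • ((A t₀)⁻¹ * A')) = A t₀ + s • A' := by
      rw [mul_add, mul_one, Matrix.mul_smul, ← mul_assoc, Matrix.mul_nonsing_inv _ hdet, one_mul]
    change (Matrix.of (B t₀ + s • B')).det = _
    rw [h5, h6]
  have h7 : HasDerivAt (fun s : ℝ => D (B t₀ + s • B'))
      ((A t₀).det * ((A t₀)⁻¹ * A').trace) 0 := by
    rw [h4]
    set q := (Matrix.det (1 + (Polynomial.X : Polynomial ℝ) •
          ((A t₀)⁻¹ * A').map Polynomial.C)).divX.divX
    set τ := ((A t₀)⁻¹ * A').trace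
    have h8 : HasDerivAt (fun s : ℝ => 1 + τ * s + q.eval s * s ^ 2)
        (τ * 1 + (q.derivative.eval 0 * 0 ^ 2 + q.eval 0 * (((2 : ℕ) : ℝ) * 0 ^ 1))) 0 := by
      refine HasDerivAt.add ?_ ((q.hasDerivAt 0).mul (hasDerivAt_pow 2 (0 : ℝ)))
      exact ((hasDerivAt_id (0 : ℝ)).const_mul τ).const_add 1
    have h9 := h8.const_mul (A t₀).det
    simpa using h9
  rw [h2.unique h7] at h1
  exact h1

end jacobi

section geo

lemma fderiv_apply_const {E F G : Type*} [NormedAddCommGroup E] [NormedSpace ℝ E]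
    [NormedAddCommGroup F] [NormedSpace ℝ F] [NormedAddCommGroup G] [NormedSpace ℝ G]
    (φ : E → F →L[ℝ] G) (x : E) (h : DifferentiableAt ℝ φ x) (v : F) (w : E) :
    fderiv ℝ (fun z => φ z v) x w = fderiv ℝ φ x w v := by
  rw [fderiv_clm_apply h (differentiableAt_const v)]
  simp

variable {n N : ℕ}

lemma gram_pos (f : EE n → EE N) (x : EE n) (h : LI f x) : 0 < (gram f x).det := by
  have h1 : (Matrix.gram ℝ (fun i : Fin n => dv1 f x i)).PosDef :=
    Matrix.posDef_gram_of_linearIndependent h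
  have h2 : Matrix.gram ℝ (fun i : Fin n => dv1 f x i) = gram f x := by
    ext i j
    rfl
  rw [h2] at h1
  exact h1.det_pos

lemma mcv_perp (hNR : StNR) (f : EE n → EE N) (x : EE n) (h : LI f x) (k : Fin n) :
    (inner ℝ (mcv f x) (dv1 f x k) : ℝ) = 0 := by
  obtain ⟨h1, -⟩ := hNR n N f x h
  unfold mcv
  rw [sum_inner]
  refine Finset.sum_eq_zero fun i _ => ?_
  rw [sum_inner]
  refine Finset.sum_eq_zero fun j _ => ?_
  rw [real_inner_smul_left]
  unfold sff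
  rw [h1, mul_zero]

end geo

theorem hV1 (hNR : StNR) (hSM : StSM) : StV1 := by
  intro n N f z₀ hf hLI
  obtain ⟨hev, hjg, hjt, hjgg, hgram, hginv, hsff, hmcv, -, -⟩ := hSM n N f z₀ hf hLI
  have hdet : ContDiffAt ℝ ∞ (fun z => (gram (fun y => f (y, z.2)) z.1).det) z₀ :=
    contDiffAt_det _ _ hgram
  have hpos : 0 < (gram (fun y => f (y, z₀.2)) z₀.1).det := gram_pos _ _ hLI
  have hsp : 0 < sgm (fun y => f (y, z₀.2)) z₀.1 := Real.sqrt_pos.mpr hpos
  refine ⟨hsp, hdet.sqrt hpos.ne', ?_⟩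
  intro hpde
  set x₀ := z₀.1 with hx₀
  set t₀ := z₀.2 with ht₀
  have hz : z₀ = (x₀, t₀) := rfl
  -- the curve in time
  have hcurve : Tendsto (fun t : ℝ => ((x₀, t) : EE n × ℝ)) (𝓝 t₀) (𝓝 z₀) := by
    have h1 : Continuous (fun t : ℝ => ((x₀, t) : EE n × ℝ)) := by fun_prop
    exact h1.tendsto t₀
  have hcd : HasDerivAt (fun t : ℝ => ((x₀, t) : EE n × ℝ)) ((0, 1) : EE n × ℝ) t₀ :=
    (hasDerivAt_const t₀ x₀).prodMk (hasDerivAt_id t₀)
  set H : EE n × ℝ → EE N := fun z => mcv (fun y => f (y, z.2)) z.1 with hH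
  have hHd : DifferentiableAt ℝ H z₀ := hmcv.differentiableAt (by simp)
  -- symmetry of mixed derivatives
  have hf5 : ContDiffAt ℝ 5 f z₀ := hev.self_of_nhds.2.1
  have hsymm : IsSymmSndFDerivAt ℝ f z₀ := hf5.isSymmSndFDerivAt (by norm_num [minSmoothness])
  have hfd : DifferentiableAt ℝ (fderiv ℝ f) z₀ :=
    (hf5.fderiv_right (m := 4) (by norm_num)).differentiableAt (by norm_num)
  have hmix : ∀ i : Fin n, fderiv ℝ (fun z => jg f z i) z₀ (0, 1) = fderiv ℝ H z₀ (ee i, 0) := by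
    intro i
    have h1 : fderiv ℝ (fun z => jg f z i) z₀ (0, 1) =
        fderiv ℝ (fderiv ℝ f) z₀ (0, 1) (ee i, 0) := fderiv_apply_const _ _ hfd _ _
    have h3 : fderiv ℝ (jt f) z₀ (ee i, 0) = fderiv ℝ (fderiv ℝ f) z₀ (ee i, 0) (0, 1) :=
      fderiv_apply_const _ _ hfd _ _
    have h4 : fderiv ℝ H z₀ = fderiv ℝ (jt f) z₀ := (Filter.EventuallyEq.fderiv_eq hpde).symm
    rw [h1, h4, h3]
    exact hsymm _ _
  have hjgd : ∀ j : Fin n, DifferentiableAt ℝ (fun z => jg f z j) z₀ := by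
    intro j
    exact hfd.clm_apply (differentiableAt_const _)
  -- normality of H, differentiated
  have hn : ∀ i j : Fin n, (inner ℝ (fderiv ℝ H z₀ (ee i, 0)) (jg f z₀ j) : ℝ) =
      -(inner ℝ (H z₀) (jgg f z₀ i j)) := by
    intro i j
    have h1 : (fun z => (inner ℝ (H z) (jg f z j) : ℝ)) =ᶠ[𝓝 z₀] fun _ => 0 := by
      filter_upwards [hev] with z hz'
      obtain ⟨hl, -, hd1, -⟩ := hz'
      have := mcv_perp hNR (fun y => f (y, z.2)) z.1 hl j
      rw [hd1 j] at this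
      exact this
    have h3 : fderiv ℝ (fun z => (inner ℝ (H z) (jg f z j) : ℝ)) z₀ =
        fderiv ℝ (fun _ : EE n × ℝ => (0 : ℝ)) z₀ := h1.fderiv_eq
    have h4 := congrArg (fun T : EE n × ℝ →L[ℝ] ℝ => T ((ee i, 0) : EE n × ℝ)) h3
    rw [fderiv_fun_const] at h4
    have h5 : fderiv ℝ (fun z => jg f z j) z₀ (ee i, 0) = jgg f z₀ i j := rfl
    have h7 : (inner ℝ (H z₀) (jgg f z₀ i j) : ℝ) +
        inner ℝ (fderiv ℝ H z₀ (ee i, 0)) (jg f z₀ j) = 0 := by
      rw [← h5, ← fderiv_inner_apply ℝ hHd (hjgd j)]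
      exact h4
    linarith only [h7]
  obtain ⟨hl0, -, hd1, hd2, hd3⟩ := hev.self_of_nhds
  -- H is normal
  have hHn : nrm (fun y => f (y, t₀)) x₀ (H z₀) = H z₀ := by
    obtain ⟨-, -, -, h4, -⟩ := hNR n N (fun y => f (y, t₀)) x₀ hLI
    exact h4 _ fun i => mcv_perp hNR (fun y => f (y, t₀)) x₀ hLI i
  have hHs : ∀ i j : Fin n, (inner ℝ (H z₀) (jgg f z₀ i j) : ℝ) =
      inner ℝ (H z₀) (sff (fun y => f (y, t₀)) x₀ i j) := by
    intro i j
    obtain ⟨-, -, -, -, -, -, h7, -⟩ := hNR n N (fun y => f (y, t₀)) x₀ hLI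
    unfold sff
    rw [← h7, hHn, hd2 i j]
  -- derivative of the metric
  have hgd : ∀ i j : Fin n, HasDerivAt (fun t => gram (fun y => f (y, t)) x₀ i j)
      (-2 * inner ℝ (H z₀) (sff (fun y => f (y, t₀)) x₀ i j)) t₀ := by
    intro i j
    have h1 : ∀ k : Fin n, HasDerivAt (fun t => jg f (x₀, t) k)
        (fderiv ℝ H z₀ (ee k, 0)) t₀ := by
      intro k
      rw [← hmix k]
      have h2 : HasFDerivAt (fun z => jg f z k) (fderiv ℝ (fun z => jg f z k) z₀) (x₀, t₀) :=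
        (hjgd k).hasFDerivAt
      exact h2.comp_hasDerivAt t₀ hcd
    have h2 : HasDerivAt (fun t => (inner ℝ (jg f (x₀, t) i) (jg f (x₀, t) j) : ℝ))
        (inner ℝ (jg f (x₀, t₀) i) (fderiv ℝ H z₀ (ee j, 0)) +
          inner ℝ (fderiv ℝ H z₀ (ee i, 0)) (jg f (x₀, t₀) j)) t₀ := (h1 i).inner ℝ (h1 j)
    have h3 : (fun t => gram (fun y => f (y, t)) x₀ i j) =ᶠ[𝓝 t₀]
        fun t => (inner ℝ (jg f (x₀, t) i) (jg f (x₀, t) j) : ℝ) := by
      filter_upwards [hcurve.eventually hev] with t ht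
      obtain ⟨-, -, h4, -⟩ := ht
      change (inner ℝ (dv1 (fun y => f (y, t)) x₀ i) (dv1 (fun y => f (y, t)) x₀ j) : ℝ) = _
      rw [h4 i, h4 j]
    have h5 : (inner ℝ (jg f (x₀, t₀) i) (fderiv ℝ H z₀ (ee j, 0)) : ℝ) +
          inner ℝ (fderiv ℝ H z₀ (ee i, 0)) (jg f (x₀, t₀) j) =
        -2 * inner ℝ (H z₀) (sff (fun y => f (y, t₀)) x₀ i j) := by
      rw [real_inner_comm]
      change (inner ℝ (fderiv ℝ H z₀ (ee j, 0)) (jg f z₀ i) : ℝ) +
        inner ℝ (fderiv ℝ H z₀ (ee i, 0)) (jg f z₀ j) = _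
      rw [hn i j, hn j i, hd3 j i, hHs i j]
      ring
    rw [← h5]
    exact h2.congr_of_eventuallyEq h3
  have hJ := jacobi (fun t => gram (fun y => f (y, t)) x₀)
    (Matrix.of fun i j => -2 * inner ℝ (H z₀) (sff (fun y => f (y, t₀)) x₀ i j)) t₀ hgd
    (isUnit_iff_ne_zero.mpr hpos.ne')
  have htr : ((gram (fun y => f (y, t₀)) x₀)⁻¹ *
      (Matrix.of fun i j => -2 * inner ℝ (H z₀) (sff (fun y => f (y, t₀)) x₀ i j))).trace =
      -2 * ‖H z₀‖ ^ 2 := by
    have hsym : ∀ i j, sff (fun y => f (y, t₀)) x₀ i j = sff (fun y => f (y, t₀)) x₀ j i := by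
      intro i j
      unfold sff
      rw [hd2 i j, hd2 j i, hd3 i j]
    rw [Matrix.trace]
    simp only [Matrix.diag_apply, Matrix.mul_apply, Matrix.of_apply]
    have h1 : ‖H z₀‖ ^ 2 = ∑ i, ∑ j, (gram (fun y => f (y, t₀)) x₀)⁻¹ i j *
        inner ℝ (H z₀) (sff (fun y => f (y, t₀)) x₀ i j) := by
      rw [← real_inner_self_eq_norm_sq]
      have h2 : H z₀ = ∑ i, ∑ j, (gram (fun y => f (y, t₀)) x₀)⁻¹ i j •
          sff (fun y => f (y, t₀)) x₀ i j := rfl
      conv_lhs => rw [h2, sum_inner]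
      refine Finset.sum_congr rfl fun i _ => ?_
      rw [sum_inner]
      refine Finset.sum_congr rfl fun j _ => ?_
      rw [real_inner_smul_left, ← h2, real_inner_comm]
    rw [h1, Finset.mul_sum]
    refine Finset.sum_congr rfl fun i _ => ?_
    rw [Finset.mul_sum]
    refine Finset.sum_congr rfl fun j _ => ?_
    rw [hsym j i]
    ring
  rw [htr] at hJ
  have hS := hJ.sqrt hpos.ne'
  have hfin : (gram (fun y => f (y, t₀)) x₀).det * (-2 * ‖H z₀‖ ^ 2) /
      (2 * Real.sqrt (gram (fun y => f (y, t₀)) x₀).det) =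
      -‖H z₀‖ ^ 2 * sgm (fun y => f (y, t₀)) x₀ := by
    unfold sgm
    rw [div_eq_iff (by positivity)]
    have h1 := Real.mul_self_sqrt hpos.le
    linear_combination (2 * ‖H z₀‖ ^ 2) * h1
  rw [hfin] at hS
  exact hS

end Helper7.PI
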