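import Mathlib
import Pool.Agent.Helper35.PI.St3

/-! PI module DP: the derivative of the tangential projection. -/

set_option autoImplicit false

namespace Helper7.PI

open Helper35.PI
open scoped Topology
open Filter Set

section det

variable {E : Type*} [NormedAddCommGroup E] [NormedSpace ℝ E] {n : ℕ}

lemma diff_prod {ι : Type} (s : Finset ι) (g : ι → E → ℝ) (x : E)
    (h : ∀ i ∈ s, DifferentiableAt ℝ (g i) x) :
    DifferentiableAt ℝ (fun y => ∏ i ∈ s, g i y) x := by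
  classical
  induction s using Finset.induction_on with
  | empty => simp
  | insert a s ha ih =>
    simp only [Finset.prod_insert ha]
    exact (h a (Finset.mem_insert_self a s)).fun_mul
      (ih fun i hi => h i (Finset.mem_insert_of_mem hi))

lemma diff_det (M : E → Matrix (Fin n) (Fin n) ℝ) (x : E)
    (h : ∀ i j, DifferentiableAt ℝ (fun y => M y i j) x) :
    DifferentiableAt ℝ (fun y => (M y).det) x := by
  simp only [Matrix.det_apply]
  refine DifferentiableAt.fun_sum fun σ _ => ?_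
  refine DifferentiableAt.fun_const_smul ?_ _
  exact diff_prod _ (fun i y => M y (σ i) i) x fun i _ => h _ _

lemma diff_inv (M : E → Matrix (Fin n) (Fin n) ℝ) (x : E)
    (h : ∀ i j, DifferentiableAt ℝ (fun y => M y i j) x) (hdet : (M x).det ≠ 0) (k l : Fin n) :
    DifferentiableAt ℝ (fun y => (M y)⁻¹ k l) x := by
  have h1 : (fun y => (M y)⁻¹ k l) =
      fun y => ((M y).det)⁻¹ * ((M y).updateRow l (Pi.single k 1)).det := by
    funext y
    rw [Matrix.inv_def, Ring.inverse_eq_inv', Matrix.smul_apply, Matrix.adjugate_apply,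
      smul_eq_mul]
  rw [h1]
  refine ((diff_det M x h).fun_inv hdet).fun_mul (diff_det _ x ?_)
  intro i j
  by_cases hi : i = l
  · subst hi
    simp only [Matrix.updateRow_self]
    exact differentiableAt_const _
  · simp only [Matrix.updateRow_ne hi]
    exact h i j

end det

section basics

variable {n N : ℕ} (f : EE n → EE N)

lemma Pr_apply (y : EE n) (v : EE N) :
    Pr f y v = ∑ k, ∑ l, ((gram f y)⁻¹ k l * (inner ℝ v (dv1 f y k) : ℝ)) • dv1 f y l := by
  unfold Pr
  simp only [sum_apply, smul_apply,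
    ContinuousLinearMap.smulRight_apply, innerSL_apply_apply, smul_smul]
  refine Finset.sum_congr rfl fun k _ => Finset.sum_congr rfl fun l _ => ?_
  rw [real_inner_comm]

lemma nrm_eq (y : EE n) (v : EE N) : nrm f y v = v - Pr f y v := by
  rw [Pr_apply]
  rfl

lemma ev_LI (x : EE n) (hf : ContDiffAt ℝ 2 f x) (hLI : LI f x) : ∀ᶠ y in 𝓝 x, LI f y := by
  have h1 : ContinuousAt (fun y => (fun i : Fin n => dv1 f y i)) x := by
    refine continuousAt_pi.mpr fun i => ?_
    have h2 : ContDiffAt ℝ 1 (fderiv ℝ f) x := hf.fderiv_right (by norm_num)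
    exact (h2.continuousAt).clm_apply continuousAt_const
  have h3 : IsOpen {g : Fin n → EE N | LinearIndependent ℝ g} := isOpen_setOfPred_linearIndependent
  exact h1.eventually (h3.mem_nhds hLI)

lemma diff_dv1 (x : EE n) (hf : ContDiffAt ℝ 2 f x) (i : Fin n) :
    DifferentiableAt ℝ (fun y => dv1 f y i) x := by
  have h2 : ContDiffAt ℝ 1 (fderiv ℝ f) x := hf.fderiv_right (by norm_num)
  exact (h2.differentiableAt (by norm_num)).clm_apply (differentiableAt_const _)

lemma diff_Pr (x : EE n) (hf : ContDiffAt ℝ 2 f x) (hdet : (gram f x).det ≠ 0) :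
    DifferentiableAt ℝ (Pr f) x := by
  have h1 : Pr f = fun y => ∑ k, ∑ l, (gram f y)⁻¹ k l •
      (innerSL ℝ (dv1 f y k)).smulRight (dv1 f y l) := rfl
  rw [h1]
  refine DifferentiableAt.fun_sum fun k _ => DifferentiableAt.fun_sum fun l _ => ?_
  refine DifferentiableAt.fun_smul ?_ ?_
  · refine diff_inv _ x ?_ hdet k l
    intro i j
    have h2 : (fun y => gram f y i j) = fun y => (inner ℝ (dv1 f y i) (dv1 f y j) : ℝ) := rfl
    rw [h2]
    exact (diff_dv1 f x hf i).inner ℝ (diff_dv1 f x hf j)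
  · have h3 : DifferentiableAt ℝ (fun y => innerSL ℝ (dv1 f y k)) x :=
      ((innerSL ℝ (E := EE N)).differentiableAt).comp x (diff_dv1 f x hf k)
    have h4 : (fun y => (innerSL ℝ (dv1 f y k)).smulRight (dv1 f y l)) = fun y =>
        ContinuousLinearMap.smulRightL ℝ (EE N) (EE N) (innerSL ℝ (dv1 f y k)) (dv1 f y l) := rfl
    rw [h4]
    refine DifferentiableAt.clm_apply ?_ (diff_dv1 f x hf l)
    exact ((ContinuousLinearMap.smulRightL ℝ (EE N) (EE N)).differentiableAt).comp x h3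

lemma star_eq (hNR : StNR) (x : EE n) (hLI : LI f x) (v : EE N) :
    Pr f x v = (Submodule.span ℝ (range fun i => dv1 f x i)).starProjection v := by
  obtain ⟨h1, -, h3, -⟩ := hNR n N f x hLI
  symm
  apply Submodule.eq_starProjection_of_mem_of_inner_eq_zero
  · have h4 := h3 v
    rw [nrm_eq, sub_sub_cancel] at h4
    exact h4
  · intro w hw
    rw [← nrm_eq]
    induction hw using Submodule.span_induction with
    | mem w hw =>
      obtain ⟨i, rfl⟩ := hw
      exact h1 v i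
    | zero => simp
    | add a b _ _ ha hb => rw [inner_add_right, ha, hb, add_zero]
    | smul c a _ ha => rw [inner_smul_right, ha, mul_zero]

end basics

section norm

variable {n N : ℕ}

/-- Coordinates with respect to the orthonormal frame. -/
lemma coords (P : Matrix (Fin n) (Fin n) ℝ) (hP : IsUnit P.det) (u : Fin n → EE N)
    (hON : ∀ a b : Fin n, (inner ℝ (∑ i, P i a • u i) (∑ i, P i b • u i) : ℝ)
        = if a = b then 1 else 0) (α : Fin n → ℝ) :
    ∃ c : Fin n → ℝ, (∀ j, α j = ∑ b, P j b * c b) ∧ ‖∑ j, α j • u j‖ ^ 2 = ∑ b, c b ^ 2 := by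
  refine ⟨P⁻¹.mulVec α, ?_, ?_⟩
  · intro j
    have h1 : P.mulVec (P⁻¹.mulVec α) = α := by
      rw [Matrix.mulVec_mulVec, Matrix.mul_nonsing_inv P hP, Matrix.one_mulVec]
    have h2 := congrFun h1 j
    rw [← h2]
    rfl
  · set c := P⁻¹.mulVec α with hc
    have h1 : P.mulVec c = α := by
      rw [hc, Matrix.mulVec_mulVec, Matrix.mul_nonsing_inv P hP, Matrix.one_mulVec]
    have h2 : ∀ j, α j = ∑ b, P j b * c b := by
      intro j
      rw [← h1]
      rfl
    have h3 : ∑ j, α j • u j = ∑ b, c b • ∑ i, P i b • u i := by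
      simp only [h2, Finset.sum_smul, Finset.smul_sum, smul_smul]
      rw [Finset.sum_comm]
      refine Finset.sum_congr rfl fun b _ => Finset.sum_congr rfl fun j _ => ?_
      rw [mul_comm]
    obtain ⟨q, hq⟩ : ∃ q : Fin n → EE N, ∀ b, q b = ∑ i, P i b • u i := ⟨_, fun _ => rfl⟩
    simp only [← hq] at h3 hON
    rw [h3, ← real_inner_self_eq_norm_sq]
    simp only [sum_inner, inner_sum, real_inner_smul_left, real_inner_smul_right, hON]
    refine Finset.sum_congr rfl fun b _ => ?_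
    simp [pow_two]

/-- Reordering of the fourfold sum. -/
lemma expand (P : Matrix (Fin n) (Fin n) ℝ) (w c α ξ : Fin n → ℝ)
    (hα : ∀ i, α i = ∑ a, P i a * w a) (hξ : ∀ j, ξ j = ∑ b, P j b * c b)
    (S : Fin n → Fin n → EE N) :
    ∑ i, α i • ∑ j, ξ j • S j i =
      ∑ b, ∑ a, (c b * w a) • ∑ j, ∑ i, (P j b * P i a) • S j i := by
  have h1 : ∑ i, α i • ∑ j, ξ j • S j i =
      ∑ i, ∑ j, ∑ a, ∑ b, (c b * w a * (P j b * P i a)) • S j i := by
    refine Finset.sum_congr rfl fun i _ => ?_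
    rw [Finset.smul_sum]
    refine Finset.sum_congr rfl fun j _ => ?_
    rw [smul_smul, hα, hξ, Finset.sum_mul, Finset.sum_smul]
    refine Finset.sum_congr rfl fun a _ => ?_
    rw [Finset.mul_sum, Finset.sum_smul]
    refine Finset.sum_congr rfl fun b _ => ?_
    congr 1
    ring
  have h2 : ∑ b, ∑ a, (c b * w a) • ∑ j, ∑ i, (P j b * P i a) • S j i =
      ∑ b, ∑ a, ∑ j, ∑ i, (c b * w a * (P j b * P i a)) • S j i := by
    simp only [Finset.smul_sum, smul_smul]
  rw [h1, h2]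
  calc ∑ i, ∑ j, ∑ a, ∑ b, (c b * w a * (P j b * P i a)) • S j i
      = ∑ j, ∑ i, ∑ a, ∑ b, (c b * w a * (P j b * P i a)) • S j i := Finset.sum_comm
    _ = ∑ j, ∑ a, ∑ i, ∑ b, (c b * w a * (P j b * P i a)) • S j i :=
        Finset.sum_congr rfl fun j _ => Finset.sum_comm
    _ = ∑ j, ∑ a, ∑ b, ∑ i, (c b * w a * (P j b * P i a)) • S j i :=
        Finset.sum_congr rfl fun j _ => Finset.sum_congr rfl fun a _ => Finset.sum_comm
    _ = ∑ a, ∑ j, ∑ b, ∑ i, (c b * w a * (P j b * P i a)) • S j i := Finset.sum_comm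
    _ = ∑ a, ∑ b, ∑ j, ∑ i, (c b * w a * (P j b * P i a)) • S j i :=
        Finset.sum_congr rfl fun a _ => Finset.sum_comm
    _ = ∑ b, ∑ a, ∑ j, ∑ i, (c b * w a * (P j b * P i a)) • S j i := Finset.sum_comm

/-- Cauchy-Schwarz for a bilinear combination. -/
lemma cs (w c : Fin n → ℝ) (Y : Fin n → Fin n → EE N) :
    ‖∑ a, ∑ b, (w a * c b) • Y a b‖ ^ 2 ≤
      ((∑ a, w a ^ 2) * (∑ b, c b ^ 2)) * ∑ a, ∑ b, ‖Y a b‖ ^ 2 := by
  have h1 : ‖∑ a, ∑ b, (w a * c b) • Y a b‖ ≤
      ∑ p : Fin n × Fin n, |w p.1 * c p.2| * ‖Y p.1 p.2‖ := by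
    rw [Fintype.sum_prod_type]
    refine (norm_sum_le _ _).trans (Finset.sum_le_sum fun a _ => ?_)
    refine (norm_sum_le _ _).trans (Finset.sum_le_sum fun b _ => ?_)
    rw [norm_smul, Real.norm_eq_abs]
  have h2 := Finset.sum_mul_sq_le_sq_mul_sq Finset.univ
    (fun p : Fin n × Fin n => |w p.1 * c p.2|) (fun p => ‖Y p.1 p.2‖)
  have h3 : ∑ p : Fin n × Fin n, |w p.1 * c p.2| ^ 2 = (∑ a, w a ^ 2) * (∑ b, c b ^ 2) := by
    rw [Fintype.sum_prod_type, Finset.sum_mul]
    refine Finset.sum_congr rfl fun a _ => ?_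
    rw [Finset.mul_sum]
    refine Finset.sum_congr rfl fun b _ => ?_
    rw [sq_abs, mul_pow]
  have h4 : ∑ p : Fin n × Fin n, ‖Y p.1 p.2‖ ^ 2 = ∑ a, ∑ b, ‖Y a b‖ ^ 2 := by
    rw [Fintype.sum_prod_type]
  rw [h3, h4] at h2
  refine le_trans ?_ h2
  exact pow_le_pow_left₀ (norm_nonneg _) h1 2

/-- Norm bound from the off-diagonal structure. -/
lemma off_diag (P D : EE N →L[ℝ] EE N) (K : ℝ) (hK : 0 ≤ K)
    (hPP : ∀ v, P (P v) = P v) (hPs : ∀ v w, (inner ℝ (P v) w : ℝ) = inner ℝ v (P w))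
    (hDs : ∀ v w, (inner ℝ (D v) w : ℝ) = inner ℝ v (D w))
    (hD : ∀ v, D (P v) + P (D v) = D v)
    (hT : ∀ v, ‖D (P v)‖ ≤ K * ‖P v‖) : ‖D‖ ≤ K := by
  refine ContinuousLinearMap.opNorm_le_bound _ hK fun v => ?_
  -- the two components
  have h1 : P (D (P v)) = 0 := by
    have := hD (P v)
    rw [hPP] at this
    exact left_eq_add.mp this.symm
  set u := v - P v with hu
  have hPu : P u = 0 := by rw [hu, map_sub, hPP, sub_self]
  have h2 : P (D u) = D u := by
    have := hD u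
    rwa [hPu, map_zero, zero_add] at this
  have h3 : ‖D u‖ ≤ K * ‖u‖ := by
    have h4 : ‖D u‖ ^ 2 ≤ ‖u‖ * (K * ‖D u‖) := by
      rw [← real_inner_self_eq_norm_sq, hDs]
      refine (real_inner_le_norm _ _).trans ?_
      refine mul_le_mul_of_nonneg_left ?_ (norm_nonneg _)
      have := hT (D u)
      rwa [h2] at this
    rcases eq_or_lt_of_le (norm_nonneg (D u)) with h5 | h5
    · rw [← h5]
      positivity
    · have h6 : ‖D u‖ * ‖D u‖ ≤ (K * ‖u‖) * ‖D u‖ := by nlinarith only [h4]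
      exact le_of_mul_le_mul_right h6 h5
  have hvd : v = P v + u := by rw [hu]; abel
  have hDv : D v = D (P v) + D u := by
    conv_lhs => rw [hvd]
    rw [map_add]
  have ho1 : (inner ℝ (D (P v)) (D u) : ℝ) = 0 := by
    rw [← h2, ← hPs, h1, inner_zero_left]
  have ho2 : (inner ℝ (P v) u : ℝ) = 0 := by
    rw [hPs, hPu, inner_zero_right]
  have hn1 : ‖D v‖ ^ 2 = ‖D (P v)‖ ^ 2 + ‖D u‖ ^ 2 := by
    rw [hDv, norm_add_sq_real, ho1]
    ring
  have hn2 : ‖v‖ ^ 2 = ‖P v‖ ^ 2 + ‖u‖ ^ 2 := by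
    conv_lhs => rw [hvd]
    rw [norm_add_sq_real, ho2]
    ring
  have h7 : ‖D v‖ ^ 2 ≤ (K * ‖v‖) ^ 2 := by
    rw [hn1, mul_pow, hn2]
    have h8 := pow_le_pow_left₀ (norm_nonneg _) (hT v) 2
    have h9 := pow_le_pow_left₀ (norm_nonneg _) h3 2
    nlinarith only [h8, h9]
  exact le_of_sq_le_sq h7 (by positivity)

end norm

theorem hDP (hFR : StFR) (hNR : StNR) : StDP := by
  intro n N f x hf hLI
  obtain ⟨hpos, hdet, P, hgP, hPdet, hPgP, hON, hX1, hX2, hX3⟩ := hFR n N f x hLI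
  have hdPr : DifferentiableAt ℝ (Pr f) x := diff_Pr f x hf hdet.ne_zero
  refine ⟨hdPr, fun v => nrm_eq f x v, fun v => star_eq f hNR x hLI v, ?_⟩
  intro ξ
  set D := fderiv ℝ (Pr f) x ξ with hDdef
  set γ : ℝ → EE n := fun s => x + s • ξ with hγ
  have hγ0 : γ 0 = x := by simp [hγ]
  have hγd : HasDerivAt γ ξ 0 := by
    have := ((hasDerivAt_id (0 : ℝ)).smul_const ξ).const_add x
    simpa [hγ] using this
  have hγt : Tendsto γ (𝓝 0) (𝓝 x) := by
    have := hγd.continuousAt.tendsto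
    rwa [hγ0] at this
  have hp : HasDerivAt (fun s => Pr f (γ s)) D 0 := by
    have h1 : HasFDerivAt (Pr f) (fderiv ℝ (Pr f) x) (γ 0) := by
      rw [hγ0]
      exact hdPr.hasFDerivAt
    exact h1.comp_hasDerivAt 0 hγd
  have hev := hγt.eventually (ev_LI f x hf hLI)
  have hPPev : ∀ᶠ s in 𝓝 (0 : ℝ), ∀ v, Pr f (γ s) (Pr f (γ s) v) = Pr f (γ s) v := by
    filter_upwards [hev] with s hs v
    obtain ⟨h1, h2, h3, -⟩ := hNR n N f (γ s) hs
    have h4 := h3 v
    rw [nrm_eq, sub_sub_cancel] at h4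
    have h5 := h2 _ h4
    rw [nrm_eq, sub_eq_zero] at h5
    exact h5.symm
  have hPsev : ∀ᶠ s in 𝓝 (0 : ℝ), ∀ v w,
      (inner ℝ (Pr f (γ s) v) w : ℝ) = inner ℝ v (Pr f (γ s) w) := by
    filter_upwards [hev] with s hs v w
    obtain ⟨-, -, -, -, -, -, h1, -⟩ := hNR n N f (γ s) hs
    have h2 := h1 v w
    rw [nrm_eq, nrm_eq, inner_sub_left, inner_sub_right] at h2
    linarith only [h2]
  have hPP : ∀ v, Pr f x (Pr f x v) = Pr f x v := by
    have := hPPev.self_of_nhds
    rwa [hγ0] at this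
  have hPs : ∀ v w, (inner ℝ (Pr f x v) w : ℝ) = inner ℝ v (Pr f x w) := by
    have := hPsev.self_of_nhds
    rwa [hγ0] at this
  have hpv : ∀ v : EE N, HasDerivAt (fun s => Pr f (γ s) v) (D v) 0 := by
    intro v
    have := hp.clm_apply (hasDerivAt_const (0 : ℝ) v)
    simpa using this
  have hDs : ∀ v w, (inner ℝ (D v) w : ℝ) = inner ℝ v (D w) := by
    intro v w
    have h1 : HasDerivAt (fun s => (inner ℝ (Pr f (γ s) v) w : ℝ)) (inner ℝ (D v) w) 0 := by
      have := (hpv v).inner ℝ (hasDerivAt_const (0 : ℝ) w)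
      simpa using this
    have h2 : HasDerivAt (fun s => (inner ℝ v (Pr f (γ s) w) : ℝ)) (inner ℝ v (D w)) 0 := by
      have := (hasDerivAt_const (0 : ℝ) v).inner ℝ (hpv w)
      simpa using this
    refine h1.unique (h2.congr_of_eventuallyEq ?_)
    filter_upwards [hPsev] with s hs
    exact hs v w
  have hD : ∀ v, D (Pr f x v) + Pr f x (D v) = D v := by
    intro v
    have h1 : HasDerivAt (fun s => Pr f (γ s) (Pr f (γ s) v))
        (D (Pr f x v) + Pr f x (D v)) 0 := by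
      have := hp.clm_apply (hpv v)
      rw [hγ0] at this
      exact this
    refine h1.unique ((hpv v).congr_of_eventuallyEq ?_)
    filter_upwards [hPPev] with s hs
    exact hs v
  -- derivative of the frame
  have hξ : ξ = ∑ j, ξ j • (ee j : EE n) := by
    have := (EuclideanSpace.basisFun (Fin n) ℝ).sum_repr ξ
    simp only [EuclideanSpace.basisFun_apply, EuclideanSpace.basisFun_repr] at this
    exact this.symm
  have hu : ∀ i : Fin n, HasDerivAt (fun s => dv1 f (γ s) i) (∑ j, ξ j • dv2 f x j i) 0 := by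
    intro i
    have h1 : HasFDerivAt (fun y => dv1 f y i) (fderiv ℝ (fun y => dv1 f y i) x) (γ 0) := by
      rw [hγ0]
      exact (diff_dv1 f x hf i).hasFDerivAt
    have h2 := h1.comp_hasDerivAt 0 hγd
    have h3 : fderiv ℝ (fun y => dv1 f y i) x ξ = ∑ j, ξ j • dv2 f x j i := by
      conv_lhs => rw [hξ]
      rw [map_sum]
      refine Finset.sum_congr rfl fun j _ => ?_
      rw [map_smul]
      rfl
    rw [h3] at h2
    exact h2
  have hDf : ∀ i : Fin n, D (dv1 f x i) = ∑ j, ξ j • sff f x j i := by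
    intro i
    have h1 : HasDerivAt (fun s => Pr f (γ s) (dv1 f (γ s) i))
        (D (dv1 f x i) + Pr f x (∑ j, ξ j • dv2 f x j i)) 0 := by
      have := hp.clm_apply (hu i)
      rw [hγ0] at this
      exact this
    have h2 : D (dv1 f x i) + Pr f x (∑ j, ξ j • dv2 f x j i) = ∑ j, ξ j • dv2 f x j i := by
      refine h1.unique ((hu i).congr_of_eventuallyEq ?_)
      filter_upwards [hev] with s hs
      obtain ⟨-, h4, -⟩ := hNR n N f (γ s) hs
      have h5 := h4 (dv1 f (γ s) i) (Submodule.subset_span ⟨i, rfl⟩)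
      rw [nrm_eq, sub_eq_zero] at h5
      exact h5.symm
    rw [map_sum] at h2
    have h3 : D (dv1 f x i) = ∑ j, (ξ j • dv2 f x j i - Pr f x (ξ j • dv2 f x j i)) := by
      rw [Finset.sum_sub_distrib]
      exact eq_sub_of_add_eq h2
    rw [h3]
    refine Finset.sum_congr rfl fun j _ => ?_
    rw [map_smul, ← smul_sub, ← nrm_eq]
    rfl
  have hfξ : fderiv ℝ f x ξ = ∑ j, ξ j • dv1 f x j := by
    conv_lhs => rw [hξ]
    rw [map_sum]
    refine Finset.sum_congr rfl fun j _ => ?_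
    rw [map_smul]
    rfl
  obtain ⟨c, hc1, hc2⟩ := coords P hPdet (fun i => dv1 f x i) hON (fun j => ξ j)
  have hnsq : nsq f x = ∑ a, ∑ b, ‖∑ i, ∑ j, (P i a * P j b) • sff f x i j‖ ^ 2 := by
    have := hX3 (fun i j => sff f x i j) (fun i j => sff f x i j)
    unfold nsq
    rw [this]
    simp only [real_inner_self_eq_norm_sq]
  have hnsq0 : 0 ≤ nsq f x := by
    rw [hnsq]
    exact Finset.sum_nonneg fun _ _ => Finset.sum_nonneg fun _ _ => sq_nonneg _
  refine off_diag (Pr f x) D _ (mul_nonneg (Real.sqrt_nonneg _) (norm_nonneg _))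
    hPP hPs hDs hD ?_
  intro v
  have hmem : Pr f x v ∈ Submodule.span ℝ (range fun i => dv1 f x i) := by
    obtain ⟨-, -, h3, -⟩ := hNR n N f x hLI
    have h4 := h3 v
    rwa [nrm_eq, sub_sub_cancel] at h4
  obtain ⟨α, hα⟩ := (Submodule.mem_span_range_iff_exists_fun ℝ).mp hmem
  obtain ⟨w, hw1, hw2⟩ := coords P hPdet (fun i => dv1 f x i) hON α
  have hDw : D (Pr f x v) =
      ∑ b, ∑ a, (c b * w a) • ∑ j, ∑ i, (P j b * P i a) • sff f x j i := by
    rw [← hα, map_sum, ← expand P w c α (fun j => ξ j) hw1 hc1]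
    refine Finset.sum_congr rfl fun i _ => ?_
    rw [map_smul, hDf]
  have h1 := cs c w (fun b a => ∑ j, ∑ i, (P j b * P i a) • sff f x j i)
  rw [← hDw, ← hnsq, ← hw2, ← hc2, hα, ← hfξ] at h1
  refine le_of_sq_le_sq ?_
    (mul_nonneg (mul_nonneg (Real.sqrt_nonneg _) (norm_nonneg _)) (norm_nonneg _))
  have h2 : (Real.sqrt (nsq f x) * ‖fderiv ℝ f x ξ‖ * ‖Pr f x v‖) ^ 2 =
      ‖fderiv ℝ f x ξ‖ ^ 2 * ‖Pr f x v‖ ^ 2 * nsq f x := by
    rw [mul_pow, mul_pow, Real.sq_sqrt hnsq0]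
    ring
  rw [h2]
  exact h1

end Helper7.PI
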