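import Mathlib
import Pool.Agent.Helper35.PI.St2

/-! PI module MP: the maximum principle at a point. -/

set_option autoImplicit false

namespace Helper7.PI

open Helper35.PI
open scoped Topology
open Filter Set

/-- The second derivative test at a local maximum. -/
lemma second_deriv_le (g : ℝ → ℝ) (hmax : IsLocalMax g 0) (hc : ContinuousAt g 0) :
    deriv (deriv g) 0 ≤ 0 := by
  by_contra hcon
  push Not at hcon
  have hmin := isLocalMin_of_deriv_deriv_pos hcon hmax.deriv_eq_zero hc
  have hconst : g =ᶠ[𝓝 0] fun _ => g 0 := by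
    filter_upwards [hmax, hmin] with s h1 h2
    exact le_antisymm h1 h2
  have h1 : deriv g =ᶠ[𝓝 0] fun _ => 0 := by
    have h2 := hconst.deriv
    refine h2.trans ?_
    exact Eventually.of_forall fun s => by simp
  rw [h1.deriv_eq] at hcon
  simp at hcon

/-- The derivative of a function along a line. -/
lemma line_deriv {n : ℕ} (φ : EE n × ℝ → ℝ) (z v : EE n × ℝ) (s : ℝ)
    (h : DifferentiableAt ℝ φ (z + s • v)) :
    HasDerivAt (fun s : ℝ => φ (z + s • v)) (fderiv ℝ φ (z + s • v) v) s := by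
  have h1 : HasDerivAt (fun s : ℝ => z + s • v) v s := by
    have := ((hasDerivAt_id s).smul_const v).const_add z
    simpa using this
  exact h.hasFDerivAt.comp_hasDerivAt s h1

theorem hMP : StMP := by
  intro n x₀ t₀ φ hφ hmax
  have hpt : ∀ k : Fin n, IsLocalMax (fun s : ℝ => φ ((x₀, t₀) + s • ((ee k, 0) : EE n × ℝ))) 0 := by
    intro k
    have hcont : Tendsto (fun s : ℝ => (x₀, t₀) + s • ((ee k, 0) : EE n × ℝ)) (𝓝 0)
        (𝓝 (x₀, t₀)) := by
      have h1 : Continuous (fun s : ℝ => (x₀, t₀) + s • ((ee k, 0) : EE n × ℝ)) := by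
        fun_prop
      have h2 := h1.tendsto 0
      simpa using h2
    filter_upwards [hcont.eventually hmax] with s hs
    have h3 := hs (by simp)
    simpa using h3
  have hdiff : ∀ᶠ z in 𝓝 (x₀, t₀), DifferentiableAt ℝ φ z := by
    have h1 := hφ.eventually (by simp)
    filter_upwards [h1] with z hz
    exact hz.differentiableAt (by norm_num)
  have hlin : ∀ k : Fin n, Tendsto (fun s : ℝ => (x₀, t₀) + s • ((ee k, 0) : EE n × ℝ)) (𝓝 0)
      (𝓝 (x₀, t₀)) := by
    intro k
    have h1 : Continuous (fun s : ℝ => (x₀, t₀) + s • ((ee k, 0) : EE n × ℝ)) := by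
      fun_prop
    have h2 := h1.tendsto 0
    simpa using h2
  have hd1 : ∀ k : Fin n, deriv (fun s : ℝ => φ ((x₀, t₀) + s • ((ee k, 0) : EE n × ℝ)))
      =ᶠ[𝓝 0] fun s => fderiv ℝ φ ((x₀, t₀) + s • ((ee k, 0) : EE n × ℝ)) (ee k, 0) := by
    intro k
    filter_upwards [(hlin k).eventually hdiff] with s hs
    exact (line_deriv φ _ _ s hs).deriv
  have hfd : DifferentiableAt ℝ (fderiv ℝ φ) (x₀, t₀) :=
    (hφ.fderiv_right (m := 1) (by norm_num)).differentiableAt (by norm_num)
  refine ⟨fun k => ?_, ?_⟩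
  · have h1 := (hpt k).deriv_eq_zero
    have h2 := (hd1 k).eq_of_nhds
    rw [h1] at h2
    unfold jg
    simpa using h2.symm
  · have hjgg : ∀ k : Fin n, jgg φ (x₀, t₀) k k ≤ 0 := by
      intro k
      have hg := second_deriv_le _ (hpt k) (by
        have h0 : DifferentiableAt ℝ φ ((x₀, t₀) + (0 : ℝ) • ((ee k, 0) : EE n × ℝ)) := by
          have := hdiff.self_of_nhds
          simpa using this
        exact (line_deriv φ _ _ 0 h0).continuousAt)
      rw [(hd1 k).deriv_eq] at hg
      have h3 : DifferentiableAt ℝ (fun z : EE n × ℝ => fderiv ℝ φ z ((ee k, 0) : EE n × ℝ))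
          ((x₀, t₀) + (0 : ℝ) • ((ee k, 0) : EE n × ℝ)) := by
        have h4 : (x₀, t₀) + (0 : ℝ) • ((ee k, 0) : EE n × ℝ) = (x₀, t₀) := by simp
        rw [h4]
        exact hfd.clm_apply (differentiableAt_const _)
      have h5 := (line_deriv _ _ _ 0 h3).deriv
      rw [h5] at hg
      unfold jgg jg
      simpa using hg
    have hjt : 0 ≤ jt φ (x₀, t₀) := by
      have hOn : IsLocalMaxOn φ {z : EE n × ℝ | z.2 ≤ t₀} (x₀, t₀) := by
        rw [IsLocalMaxOn, IsMaxFilter, eventually_nhdsWithin_iff]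
        exact hmax
      have hcone : ((0, -1) : EE n × ℝ) ∈
          posTangentConeAt {z : EE n × ℝ | z.2 ≤ t₀} (x₀, t₀) := by
        refine mem_posTangentConeAt_of_segment_subset ?_
        intro z hz
        obtain ⟨a, b, ha, hb, hab, rfl⟩ := hz
        change a * t₀ + b * (t₀ + -1) ≤ t₀
        have h6 : a * t₀ + b * (t₀ + -1) = (a + b) * t₀ - b := by ring
        rw [h6, hab]
        linarith only [hb]
      have hd0 : HasFDerivWithinAt φ (fderiv ℝ φ (x₀, t₀)) {z : EE n × ℝ | z.2 ≤ t₀} (x₀, t₀) :=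
        (hdiff.self_of_nhds).hasFDerivAt.hasFDerivWithinAt
      have h2 := hOn.hasFDerivWithinAt_nonpos hd0 hcone
      have h3 : ((0, -1) : EE n × ℝ) = -((0, 1) : EE n × ℝ) := by simp
      rw [h3, map_neg] at h2
      unfold jt
      linarith only [h2]
    have hs := Finset.sum_nonpos (s := Finset.univ) (fun k _ => hjgg k)
    unfold jh
    linarith only [hs, hjt]

end Helper7.PI
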